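import Pool.Agent.Helper15.BP.Law

/-!
# BP, step 4: from the polynomial Freiman-Ruzsa estimate to the subgroup `H_X`

For a law `p` on a finite group we take the subgroup maximising `DL p K - (1/4) log [G:K]`.
-/

set_option autoImplicit false

namespace Pool.Agent.Helper15.BP

open Finset

variable {G : Type} [AddCommGroup G] [Fintype G]

/-- the family with one law (no side information) -/
def oneLaw (p : G → ℝ) (hp : IsPr p) : Fam G where
  Ω := G
  ι := Unit
  fin := inferInstance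
  w := p
  hw := hp
  J := fun _ => ()
  Y := fun x => x

theorem oneLaw_c {p : G → ℝ} (hp : IsPr p) (K : AddSubgroup G) :
    (oneLaw p hp).c K = Ent p (fun x => (QuotientAddGroup.mk x : G ⧸ K)) := by
  unfold Fam.c
  have h1 : Ent (oneLaw p hp).w (oneLaw p hp).J = 0 := Ent_const hp ()
  have h2 : Ent (oneLaw p hp).w (fun o => ((oneLaw p hp).J o,
      (QuotientAddGroup.mk ((oneLaw p hp).Y o) : G ⧸ K))) =
      Ent p (fun x => (QuotientAddGroup.mk x : G ⧸ K)) := by
    refine Ent_congr fun o o' => ?_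
    constructor
    · intro h
      exact congrArg Prod.snd h
    · intro h
      exact Prod.ext rfl h
  rw [h1, h2, sub_zero]

theorem oneLaw_D {p : G → ℝ} (hp : IsPr p) (K : AddSubgroup G) :
    (oneLaw p hp).D K = DL p K := by
  unfold Fam.D DL
  rw [oneLaw_c]

theorem DL_anti {p : G → ℝ} (hp : IsPr p) {K H : AddSubgroup G} (h : K ≤ H) :
    DL p H ≤ DL p K := by
  rw [← oneLaw_D hp, ← oneLaw_D hp]
  exact (oneLaw p hp).D_anti h

theorem DL_nonneg {p : G → ℝ} (hp : IsPr p) (H : AddSubgroup G) : 0 ≤ DL p H := by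
  rw [← oneLaw_D hp]
  exact (oneLaw p hp).D_nonneg H

theorem DL_le_log_index {p : G → ℝ} (hp : IsPr p) (H : AddSubgroup G) :
    DL p H ≤ Real.log H.index := by
  rw [← oneLaw_D hp]
  exact (oneLaw p hp).D_le_log_index H

theorem DL_supermod {p : G → ℝ} (hp : IsPr p) (H K : AddSubgroup G) :
    DL p H + DL p K ≤ DL p (H ⊓ K) + DL p (H ⊔ K) := by
  rw [← oneLaw_D hp, ← oneLaw_D hp, ← oneLaw_D hp, ← oneLaw_D hp]
  exact (oneLaw p hp).D_supermod H K

/-- `H(X + X') ≥ H(X)` -/
theorem dd_nonneg {p : G → ℝ} (hp : IsPr p) : 0 ≤ dd p := by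
  have h1 := (oneLaw p hp).c_add_ge_left (oneLaw p hp) ⊥
  have h2 : (oneLaw p hp).c ⊥ = EL p := by
    rw [oneLaw_c]
    unfold EL
    refine Ent_congr fun o o' => ?_
    rw [Fam.mk_eq_iff, AddSubgroup.mem_bot, sub_eq_zero]
  have h3 : ((oneLaw p hp).add (oneLaw p hp)).c ⊥ = EL (conv p p) := by
    have h4 : EL (conv p p) = Ent (prodW p p) (fun t => t.1 + t.2) := by
      unfold EL
      exact Ent_conv p p (fun x => x)
    rw [h4]
    unfold Fam.c
    have h5 : Ent ((oneLaw p hp).add (oneLaw p hp)).w ((oneLaw p hp).add (oneLaw p hp)).J = 0 :=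
      Ent_const (hp.prod hp) ((), ())
    have h6 : Ent ((oneLaw p hp).add (oneLaw p hp)).w
        (fun o => (((oneLaw p hp).add (oneLaw p hp)).J o,
          (QuotientAddGroup.mk (((oneLaw p hp).add (oneLaw p hp)).Y o) :
            G ⧸ (⊥ : AddSubgroup G)))) = Ent (prodW p p) (fun t => t.1 + t.2) := by
      refine Ent_congr (w := prodW p p) fun o o' => ?_
      constructor
      · intro h
        have h7 := congrArg Prod.snd h
        rw [Fam.mk_eq_iff, AddSubgroup.mem_bot, sub_eq_zero] at h7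
        exact h7
      · intro h
        have h8 : ((oneLaw p hp).add (oneLaw p hp)).Y o =
          ((oneLaw p hp).add (oneLaw p hp)).Y o' := h
        rw [h8]
        exact Prod.ext rfl rfl
    rw [h5, h6, sub_zero]
  unfold dd
  rw [h2, h3] at h1
  linarith

/-- **step 4** -/
theorem step4 (C : ℝ) (hC : 0 ≤ C) (p : G → ℝ) (hp : IsPr p)
    (hdd : 0 ≤ dd p) (hpfr : ∃ H : AddSubgroup G,
      (Real.log H.index - DL p H) + (DL p ⊥ - DL p H) ≤ C * dd p) :
    ∃ Hp : AddSubgroup G, DL p ⊥ - (4 / 3) * C * dd p ≤ DL p Hp ∧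
      ∀ K, Hp ≤ K → (1 / 4) * (Real.log Hp.index - Real.log K.index) ≤ DL p Hp - DL p K := by
  have hfin : Finite (AddSubgroup G) := inferInstance
  obtain ⟨Hp, hHp⟩ := Finite.exists_max
    (fun K : AddSubgroup G => DL p K - (1 / 4) * Real.log K.index)
  refine ⟨Hp, ?_, ?_⟩
  · obtain ⟨H, hH⟩ := hpfr
    have h1 : DL p H ≤ Real.log H.index := DL_le_log_index hp H
    have h2 : DL p H ≤ DL p ⊥ := DL_anti hp bot_le
    have h3 := DL_supermod hp H Hp
    have h4 := Fam.log_index_modular H Hp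
    have h5 : DL p (H ⊔ Hp) ≤ Real.log (H ⊔ Hp).index := DL_le_log_index hp _
    have h6 := hHp (H ⊓ Hp)
    have h7 : DL p H ≤ DL p (H ⊓ Hp) := DL_anti hp inf_le_left
    linarith
  · intro K _
    have h1 := hHp K
    linarith

end Pool.Agent.Helper15.BP
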